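import Mathlib

/-!
# The word `aab` in the plane: the upper bound by `3 × 3` windows

For a Boolean function `s` on a finite commutative group `G` (`true` for the letter `b`, `false`
for the letter `a`) and `e₁, e₂ ∈ G` the number of appearances of `aab` in the eight directions
`i e₁ + j e₂` is at most `2 |G|`.
-/

set_option autoImplicit false

open Finset

namespace Pool.Agent.X153.WS

/-- The word `aab`. -/
def fwd (x y z : Bool) : ℕ := if (!x && !y && z) then 1 else 0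

/-- The word `aab` read in one of the two directions. -/
def gd (x y z : Bool) : ℕ := fwd x y z + fwd z y x

/-- The potential (shifted by 12). -/
def tab : List ℕ := [12, 13, 11, 12, 18, 15, 14, 17, 6, 10, 9, 7, 12, 12, 12, 12, 13, 18, 12, 17,
  15, 24, 17, 20, 10, 6, 7, 3, 12, 12, 12, 9, 11, 12, 6, 7, 14, 17, 18, 21, 9, 7, 0, 4, 12, 12,
  12, 15, 12, 17, 7, 12, 17, 20, 21, 12, 7, 3, 4, 12, 12, 9, 15, 12]

/-- The potential of a `3 × 2` window. -/
def q (a b c d e f : Bool) : ℕ :=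
  tab.getD (a.toNat + 2 * b.toNat + 4 * c.toNat + 8 * d.toNat + 16 * e.toNat + 32 * f.toNat) 0

theorem local_ineq : ∀ x00 x01 x02 x10 x11 x12 x20 x21 x22 : Bool,
    4 * (gd x00 x01 x02 + gd x10 x11 x12 + gd x20 x21 x22 +
        (gd x00 x10 x20 + gd x01 x11 x21 + gd x02 x12 x22) +
        (3 * gd x00 x11 x22 + 3 * gd x02 x11 x20)) +
      (q x01 x02 x11 x12 x21 x22 + q x10 x20 x11 x21 x12 x22) ≤
    24 + (q x00 x01 x10 x11 x20 x21 + q x00 x10 x01 x11 x02 x12) := by
  decide +kernel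

variable {G : Type} [AddCommGroup G] [Fintype G]

/-- The number of appearances in the directions `u` and `-u`. -/
def T (s : G → Bool) (u : G) : ℕ := ∑ p : G, gd (s p) (s (p + u)) (s (p + u + u))

theorem sum_shift (F : G → ℕ) (a : G) : ∑ p, F (p + a) = ∑ p, F p :=
  Equiv.sum_comp (Equiv.addRight a) F

theorem T_eq (s : G → Bool) (a u : G) (b c d : G → G) (hb : ∀ p, b p = p + a)
    (hc : ∀ p, c p = p + a + u) (hd : ∀ p, d p = p + a + u + u) :
    ∑ p, gd (s (b p)) (s (c p)) (s (d p)) = T s u := by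
  simp only [hb, hc, hd]
  exact sum_shift (fun p => gd (s p) (s (p + u)) (s (p + u + u))) a

theorem total_le (s : G → Bool) (e1 e2 : G) :
    T s e1 + T s e2 + T s (e1 + e2) + T s (e1 - e2) ≤ 2 * Fintype.card G := by
  set Q1 : G → ℕ := fun p => q (s p) (s (p + e2)) (s (p + e1)) (s (p + e1 + e2))
    (s (p + e1 + e1)) (s (p + e1 + e1 + e2)) with hQ1
  set Q2 : G → ℕ := fun p => q (s p) (s (p + e1)) (s (p + e2)) (s (p + e1 + e2))
    (s (p + e2 + e2)) (s (p + e1 + e2 + e2)) with hQ2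
  have key := fun p : G => local_ineq (s p) (s (p + e2)) (s (p + e2 + e2)) (s (p + e1))
    (s (p + e1 + e2)) (s (p + e1 + e2 + e2)) (s (p + e1 + e1)) (s (p + e1 + e1 + e2))
    (s (p + e1 + e1 + e2 + e2))
  have hsum := Finset.sum_le_sum (s := (Finset.univ : Finset G)) fun p _ => key p
  simp only [Finset.sum_add_distrib, ← Finset.mul_sum] at hsum
  have r0 : ∑ p, gd (s p) (s (p + e2)) (s (p + e2 + e2)) = T s e2 := rfl
  have r1 : ∑ p, gd (s (p + e1)) (s (p + e1 + e2)) (s (p + e1 + e2 + e2)) = T s e2 :=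
    T_eq s e1 e2 _ _ _ (fun p => rfl) (fun p => rfl) (fun p => rfl)
  have r2 : ∑ p, gd (s (p + e1 + e1)) (s (p + e1 + e1 + e2)) (s (p + e1 + e1 + e2 + e2)) =
      T s e2 :=
    T_eq s (e1 + e1) e2 _ _ _ (fun p => by abel) (fun p => by abel) (fun p => by abel)
  have c0 : ∑ p, gd (s p) (s (p + e1)) (s (p + e1 + e1)) = T s e1 := rfl
  have c1 : ∑ p, gd (s (p + e2)) (s (p + e1 + e2)) (s (p + e1 + e1 + e2)) = T s e1 :=
    T_eq s e2 e1 _ _ _ (fun p => rfl) (fun p => by abel) (fun p => by abel)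
  have c2 : ∑ p, gd (s (p + e2 + e2)) (s (p + e1 + e2 + e2)) (s (p + e1 + e1 + e2 + e2)) =
      T s e1 :=
    T_eq s (e2 + e2) e1 _ _ _ (fun p => by abel) (fun p => by abel) (fun p => by abel)
  have d1 : ∑ p, gd (s p) (s (p + e1 + e2)) (s (p + e1 + e1 + e2 + e2)) = T s (e1 + e2) :=
    T_eq s 0 (e1 + e2) (fun p => p) _ _ (fun p => by abel) (fun p => by abel)
      (fun p => by abel)
  have d2 : ∑ p, gd (s (p + e2 + e2)) (s (p + e1 + e2)) (s (p + e1 + e1)) = T s (e1 - e2) :=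
    T_eq s (e2 + e2) (e1 - e2) _ _ _ (fun p => by abel) (fun p => by abel) (fun p => by abel)
  have q1 : ∑ p, q (s (p + e2)) (s (p + e2 + e2)) (s (p + e1 + e2)) (s (p + e1 + e2 + e2))
      (s (p + e1 + e1 + e2)) (s (p + e1 + e1 + e2 + e2)) = ∑ p, Q1 p := by
    rw [← sum_shift Q1 e2]
    refine Finset.sum_congr rfl fun p _ => ?_
    simp only [hQ1]
    congr 2 <;> abel
  have q2 : ∑ p, q (s (p + e1)) (s (p + e1 + e1)) (s (p + e1 + e2)) (s (p + e1 + e1 + e2))
      (s (p + e1 + e2 + e2)) (s (p + e1 + e1 + e2 + e2)) = ∑ p, Q2 p := by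
    rw [← sum_shift Q2 e1]
  have q1' : ∑ p, q (s p) (s (p + e2)) (s (p + e1)) (s (p + e1 + e2))
      (s (p + e1 + e1)) (s (p + e1 + e1 + e2)) = ∑ p, Q1 p := rfl
  have q2' : ∑ p, q (s p) (s (p + e1)) (s (p + e2)) (s (p + e1 + e2))
      (s (p + e2 + e2)) (s (p + e1 + e2 + e2)) = ∑ p, Q2 p := rfl
  rw [r0, r1, r2, c0, c1, c2, d1, d2, q1, q2, q1', q2'] at hsum
  simp only [Finset.sum_const, Finset.card_univ, smul_eq_mul] at hsum
  omega

end Pool.Agent.X153.WS
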